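import Mathlib

set_option autoImplicit false

/-!
# Project HC (helper255): a hypercontractive inequality for sums of characters of a random
multiplicative function, and almost sure bounds

The random function has independent values at the primes; `e j`, `j ∈ ι`, are functions of one value
(for example the powers `z^j`, `j ∈ ℤ`, of a point of the circle, or the characters of the cube roots
of unity). No structure of the coordinate is used except that the `e j`, `j ≠ 0`, are bounded by `1`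
and have mean zero.
-/

namespace Pool.Agent.Q255.HC

open Finset Filter Topology MeasureTheory

noncomputable section

/-- a system of functions on one coordinate, with weights `v` -/
structure Sys {E : Type} [MeasurableSpace E] (μ : Measure E) {ι : Type} [Zero ι] (e : ι → E → ℂ)
    (v : ι → ℝ) : Prop where
  meas : ∀ j, Measurable (e j)
  bd : ∀ j x, ‖e j x‖ ≤ 1
  zero : ∀ x, e 0 x = 1
  mean : ∀ j, j ≠ 0 → ∫ x, e j x ∂μ = 0
  vpos : ∀ j, 1 ≤ v j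
  vsum : ∀ S : Finset ι, (0 : ι) ∉ S → ∑ j ∈ S, 1 / v j ≤ 1

/-- the product of the functions `e (x p)` at the coordinates `p` -/
def ex {E ι : Type} [Zero ι] (e : ι → E → ℂ) (x : ℕ →₀ ι) (ω : ℕ → E) : ℂ :=
  ∏ p ∈ x.support, e (x p) (ω p)

/-- ONE: the inequality for one coordinate.
Proof: `‖a + X‖² = A + Y`, `A = ‖a‖²`, `Y = 2 Re(conj a X) + ‖X‖²`, `∫ Y = ∫ ‖X‖² ≤ b²`,
`|Y| ≤ 2 ‖a‖ b + b²`. Expand `(A + Y)^m = A^m + m A^(m-1) Y + ∑_{i ≥ 2} C(m,i) A^(m-i) Y^i`; for `i ≥ 2`,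
`A^(m-i) (2 ‖a‖ b + b²)^i ≤ 3^i max(A^(m-1) b², b^(2m))` (consider `b² ≤ A` and `b² > A`), so that the
integral is at most `A^m + C' (A^(m-1) b² + b^(2m)) ≤ (A + C b²)^m` with `C = 1 + C'` or so. -/
def S_ONE : Prop := ∀ m : ℕ, 1 ≤ m → ∃ C : ℝ, 1 ≤ C ∧ ∀ (E : Type) [MeasurableSpace E]
  (μ : Measure E) [IsProbabilityMeasure μ] (a : ℂ) (X : E → ℂ) (b : ℝ), Measurable X → 0 ≤ b →
  (∀ y, ‖X y‖ ≤ b) → ∫ y, X y ∂μ = 0 →
  ∫ y, ‖a + X y‖ ^ (2 * m) ∂μ ≤ (‖a‖ ^ 2 + C * b ^ 2) ^ m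

/-- UPD: integration over one coordinate first.
Proof: the map `(ω, y) ↦ Function.update ω p y` sends the product of the infinite product measure with
`μ` to the infinite product measure (`Measure.eq_infinitePi` on boxes, or Mathlib). -/
def S_UPD : Prop := ∀ (E : Type) [MeasurableSpace E] (μ : Measure E) [IsProbabilityMeasure μ] (p : ℕ)
  (F : (ℕ → E) → ℝ), Measurable F → (∃ K : ℝ, ∀ ω, |F ω| ≤ K) →
  ∫ ω, F ω ∂(Measure.infinitePi fun _ : ℕ => μ) =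
    ∫ ω, (∫ y, F (Function.update ω p y) ∂μ) ∂(Measure.infinitePi fun _ : ℕ => μ)

/-- HCI: the hypercontractive inequality, with the constant of `S_ONE`.
Proof: induction on the finite set `P` of the coordinates which occur. For `p ∈ P` write
`F = ∑_j F_j e_j(ω_p)`, `F_j` the sum over the `x` with `x p = j` (the coordinate `p` removed). For fixed
other coordinates `S_ONE` with `a = F_0`, `X = ∑_{j ≠ 0} F_j e_j`, `b² = ∑_{j ≠ 0} v_j ‖F_j‖²`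
(Cauchy-Schwarz and `vsum`) gives `∫ ‖F‖^(2m) dω_p ≤ (∑_j w_j ‖F_j‖²)^m`, `w_0 = 1`, `w_j = C v_j`.
By Minkowski in `L^m` (or expand the `m`-th power and use Hölder) the integral over the other
coordinates is at most `(∑_j w_j (∫ ‖F_j‖^(2m))^(1/m))^m`; insert the bound for the `F_j`. -/
def S_HCI : Prop := ∀ m : ℕ, 1 ≤ m → ∃ C : ℝ, 1 ≤ C ∧ ∀ (E : Type) [MeasurableSpace E]
  (μ : Measure E) [IsProbabilityMeasure μ] (ι : Type) [Zero ι] [DecidableEq ι] (e : ι → E → ℂ)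
  (v : ι → ℝ), Sys μ e v → ∀ (S : Finset (ℕ →₀ ι)) (c : (ℕ →₀ ι) → ℂ),
  ∫ ω, ‖∑ x ∈ S, c x * ex e x ω‖ ^ (2 * m) ∂(Measure.infinitePi fun _ : ℕ => μ) ≤
    (∑ x ∈ S, ‖c x‖ ^ 2 * ∏ p ∈ x.support, (C * v (x p))) ^ m

/-- AEG: almost sure bounds for families of polynomial size.
Proof: `S_HCI` with `m > (A + 2)/(2 ε')`, the Markov inequality, the union bound over `T R` and
Borel-Cantelli (see `ae_main` in `Pool/Agent/Q163/HC/Num.lean` and `bcf` there). -/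
def S_AEG : Prop := ∀ (E : Type) [MeasurableSpace E]
  (μ : Measure E) [IsProbabilityMeasure μ] (ι : Type) [Zero ι] [DecidableEq ι] (e : ι → E → ℂ)
  (v : ι → ℝ), Sys μ e v → ∀ (τ : Type) (T : ℕ → Finset τ) (A : ℕ) (C0 : ℝ),
  (∀ R : ℕ, 1 ≤ R → ((T R).card : ℝ) ≤ C0 * (R : ℝ) ^ A) →
  ∀ (S : ℕ → τ → Finset (ℕ →₀ ι)) (c : ℕ → τ → (ℕ →₀ ι) → ℂ) (Y : ℕ → τ → ℝ),
  (∀ K : ℝ, 1 ≤ K → ∀ η : ℝ, 0 < η → ∃ D : ℝ, ∀ R : ℕ, 1 ≤ R → ∀ t ∈ T R, ∀ x ∈ S R t,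
    ∏ p ∈ x.support, (K * v (x p)) ≤ D * (R : ℝ) ^ η) →
  (∀ R : ℕ, 1 ≤ R → ∀ t ∈ T R, 0 < Y R t ∧ ∑ x ∈ S R t, ‖c R t x‖ ^ 2 ≤ Y R t) →
  ∀ ε : ℝ, 0 < ε → ∀ᵐ ω ∂(Measure.infinitePi fun _ : ℕ => μ), ∀ᶠ R : ℕ in atTop, ∀ t ∈ T R,
    ‖∑ x ∈ S R t, c R t x * ex e x ω‖ ≤ (R : ℝ) ^ ε * Real.sqrt (Y R t)

end

end Pool.Agent.Q255.HC
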